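import Pool.Agent.Helper95.RP.St

/-!
# Project RP, module CA: correction of the class sums
-/

set_option autoImplicit false

namespace Pool.Agent.Helper78.RP

open Pool.Agent.Helper95.RP Finset
open scoped Classical

theorem CA_nb {N : ℕ} (V : Finset (Fin N)) (cl : Cp N → Lb N) (E : Finset (Fin N × Fin N))
    (L : ℕ) (hE : ∀ p ∈ E, p.1 ∈ V ∧ p.2 ∈ V ∧ cl (p.1, false) = cl (p.2, true)) (x : Cp N)
    (hx : L ≤ inc E x) :
    ∃ A : Finset (Cp N), A ⊆ Qc V cl (cl x) ∧ L ≤ A.card ∧ ∀ y ∈ A, 1 ≤ inc E y := by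
  obtain ⟨x1, x2⟩ := x
  cases x2 with
  | false =>
    set F := E.filter (fun p => (p.1, false) = ((x1, false) : Cp N) ∨
      (p.2, true) = ((x1, false) : Cp N)) with hF
    have hFp : ∀ p ∈ F, p ∈ E ∧ p.1 = x1 := by
      intro p hp
      rw [hF, mem_filter] at hp
      refine ⟨hp.1, ?_⟩
      rcases hp.2 with h | h
      · exact (Prod.mk.inj h).1
      · exact absurd (Prod.mk.inj h).2 (by simp)
    refine ⟨F.image (fun p => (p.2, true)), ?_, ?_, ?_⟩
    · intro y hy
      obtain ⟨p, hp, rfl⟩ := mem_image.1 hy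
      obtain ⟨h1, h2⟩ := hFp p hp
      unfold Qc
      rw [mem_filter]
      refine ⟨mem_univ _, (hE p h1).2.1, ?_⟩
      rw [← h2]
      exact (hE p h1).2.2.symm
    · rw [Finset.card_image_of_injOn]
      · exact hx
      · intro p hp p' hp' h
        exact Prod.ext ((hFp p hp).2.trans (hFp p' hp').2.symm) (Prod.mk.inj h).1
    · intro y hy
      obtain ⟨p, hp, rfl⟩ := mem_image.1 hy
      obtain ⟨h1, h2⟩ := hFp p hp
      unfold inc
      exact Finset.card_pos.mpr ⟨p, mem_filter.2 ⟨h1, Or.inr rfl⟩⟩
  | true =>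
    set F := E.filter (fun p => (p.1, false) = ((x1, true) : Cp N) ∨
      (p.2, true) = ((x1, true) : Cp N)) with hF
    have hFp : ∀ p ∈ F, p ∈ E ∧ p.2 = x1 := by
      intro p hp
      rw [hF, mem_filter] at hp
      refine ⟨hp.1, ?_⟩
      rcases hp.2 with h | h
      · exact absurd (Prod.mk.inj h).2 (by simp)
      · exact (Prod.mk.inj h).1
    refine ⟨F.image (fun p => (p.1, false)), ?_, ?_, ?_⟩
    · intro y hy
      obtain ⟨p, hp, rfl⟩ := mem_image.1 hy
      obtain ⟨h1, h2⟩ := hFp p hp
      unfold Qc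
      rw [mem_filter]
      refine ⟨mem_univ _, (hE p h1).1, ?_⟩
      rw [← h2]
      exact (hE p h1).2.2
    · rw [Finset.card_image_of_injOn]
      · exact hx
      · intro p hp p' hp' h
        exact Prod.ext (Prod.mk.inj h).1 ((hFp p hp).2.trans (hFp p' hp').2.symm)
    · intro y hy
      obtain ⟨p, hp, rfl⟩ := mem_image.1 hy
      obtain ⟨h1, h2⟩ := hFp p hp
      unfold inc
      exact Finset.card_pos.mpr ⟨p, mem_filter.2 ⟨h1, Or.inl rfl⟩⟩

/-- the first approximation -/
noncomputable def CA_c1 {N : ℕ} (V : Finset (Fin N)) (s : Fin N → Bool) (c0 : Fin N → ℤ)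
    (x : Cp N) : ℤ := if x.1 ∈ V ∧ s x.1 = x.2 then c0 x.1 else 0

theorem CA_beta {N : ℕ} (V : Finset (Fin N)) (cl : Cp N → Lb N) (s : Fin N → Bool)
    (c0 : Fin N → ℤ) (j : Lb N) :
    ∑ x ∈ Qc V cl j, sg (CA_c1 V s c0) x =
      ∑ u ∈ V.filter (fun u => cl (u, false) = j ∧ s u = false), c0 u -
      ∑ u ∈ V.filter (fun u => cl (u, true) = j ∧ s u = true), c0 u := by
  unfold Qc
  rw [Finset.sum_filter, Fintype.sum_prod_type]
  have h1 : ∀ u : Fin N, ∑ i : Bool, (if (u, i).1 ∈ V ∧ cl (u, i) = j then
      sg (CA_c1 V s c0) (u, i) else 0) =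
      (if u ∈ V ∧ cl (u, false) = j ∧ s u = false then c0 u else 0) -
      (if u ∈ V ∧ cl (u, true) = j ∧ s u = true then c0 u else 0) := by
    intro u
    rw [Fintype.sum_bool]
    unfold sg CA_c1
    by_cases hV : u ∈ V
    · cases hs : s u <;> by_cases hf : cl (u, false) = j <;> by_cases ht : cl (u, true) = j <;>
        simp [hV, hs, hf, ht]
    · simp [hV]
  rw [Finset.sum_congr rfl (fun u _ => h1 u), Finset.sum_sub_distrib]
  rw [← Finset.sum_filter, ← Finset.sum_filter]
  congr 1
  · apply Finset.sum_congr _ (fun _ _ => rfl)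
    ext u
    rw [mem_filter, mem_filter]
    simp
  · apply Finset.sum_congr _ (fun _ _ => rfl)
    ext u
    rw [mem_filter, mem_filter]
    simp

/-- **CA** -/
theorem hCA : CA := by
  intro hRO N V cl E s c0 B L hL hE hs hc0 hcs
  have hLpos : (0 : ℤ) < L := by exact_mod_cast hL
  have hL1 : (1 : ℤ) ≤ L := by exact_mod_cast hL
  have hB0 : (0 : ℤ) ≤ B := by positivity
  set c1 := CA_c1 V s c0 with hc1
  set β : Lb N → ℤ := fun j => ∑ x ∈ Qc V cl j, sg c1 x with hβ
  have hβb : ∀ j, |β j| ≤ 2 * (B : ℤ) := by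
    intro j
    rw [hβ]
    simp only
    rw [hc1, CA_beta]
    refine (abs_sub _ _).trans ?_
    have h1 := hcs j false
    have h2 := hcs j true
    linarith
  -- the corrections in one class
  have hcor : ∀ j : Lb N, ∃ (A : Finset (Cp N)) (a : Cp N → ℤ), A ⊆ Qc V cl j ∧
      ∑ y ∈ A, a y = β j ∧ ∀ y ∈ A, (L : ℤ) * |a y| ≤ 2 * B + L ∧ 1 ≤ inc E y := by
    intro j
    by_cases hbusy : ∃ u ∈ V, cl (u, s u) = j
    · obtain ⟨u, hu, huj⟩ := hbusy
      obtain ⟨A, hA1, hA2, hA3⟩ := CA_nb V cl E L hE (u, s u) (hs u hu)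
      rw [huj] at hA1
      have hApos : (0 : ℝ) < (A.card : ℝ) := by
        have : 0 < A.card := by omega
        exact_mod_cast this
      obtain ⟨m, hm1, hm2⟩ := hRO (Cp N) A (fun _ => (β j : ℝ) / A.card) (β j) (by
        rw [Finset.sum_const, nsmul_eq_mul]
        have : (A.card : ℝ) * ((β j : ℝ) / A.card) = β j := by field_simp
        rw [this]
        simp)
      refine ⟨A, m, hA1, hm2, ?_⟩
      intro y hy
      refine ⟨?_, hA3 y hy⟩
      have h1 := hm1 y hy
      have hLR : (0 : ℝ) < (L : ℝ) := by exact_mod_cast hLpos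
      have hLA : (L : ℝ) ≤ (A.card : ℝ) := by exact_mod_cast hA2
      have h2 : |(m y : ℝ)| ≤ |(β j : ℝ)| / A.card + 1 := by
        have h3 : |(m y : ℝ)| ≤ |(m y : ℝ) - (β j : ℝ) / A.card| + |(β j : ℝ) / A.card| := by
          have := abs_add_le ((m y : ℝ) - (β j : ℝ) / A.card) ((β j : ℝ) / A.card)
          rwa [sub_add_cancel] at this
        rw [abs_div, abs_of_pos hApos] at h3
        linarith
      have h4 : |(β j : ℝ)| ≤ 2 * B := by
        have := hβb j
        exact_mod_cast this
      have h5 : (L : ℝ) * (|(β j : ℝ)| / A.card) ≤ 2 * B := by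
        rw [← mul_div_assoc, div_le_iff₀ hApos]
        have h6 := mul_le_mul hLA h4 (abs_nonneg _) hApos.le
        linarith
      have h6 : (L : ℝ) * |(m y : ℝ)| ≤ 2 * B + L := by
        have := mul_le_mul_of_nonneg_left h2 hLR.le
        rw [mul_add, mul_one] at this
        linarith
      exact_mod_cast h6
    · push Not at hbusy
      refine ⟨∅, fun _ => 0, Finset.empty_subset _, ?_, ?_⟩
      · rw [Finset.sum_empty, hβ]
        simp only
        symm
        apply Finset.sum_eq_zero
        intro x hx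
        unfold Qc at hx
        rw [mem_filter] at hx
        have : c1 x = 0 := by
          rw [hc1]
          unfold CA_c1
          rw [if_neg]
          rintro ⟨h1, h2⟩
          apply hbusy x.1 h1
          rw [h2]
          exact hx.2.2
        unfold sg
        rw [this]
        simp
      · intro y hy
        exact absurd hy (Finset.notMem_empty _)
  choose A a hA1 hA2 hA3 using hcor
  set a' : Cp N → ℤ := fun y => if y ∈ A (cl y) then a (cl y) y else 0 with ha'
  have ha'b : ∀ y, (L : ℤ) * |a' y| ≤ 2 * B + L := by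
    intro y
    rw [ha']
    simp only
    split_ifs with h
    · exact (hA3 (cl y) y h).1
    · rw [abs_zero, mul_zero]
      linarith
  have ha'V : ∀ y : Cp N, y.1 ∉ V → a' y = 0 := by
    intro y hy
    rw [ha']
    simp only
    rw [if_neg]
    intro h
    have := hA1 (cl y) h
    unfold Qc at this
    rw [mem_filter] at this
    exact hy this.2.1
  have hc1V : ∀ y : Cp N, y.1 ∉ V → c1 y = 0 := by
    intro y hy
    rw [hc1]
    unfold CA_c1
    rw [if_neg]
    exact fun h => hy h.1
  refine ⟨fun y => if y.2 = true then c1 y + a' y else c1 y - a' y, ?_, ?_, ?_, ?_⟩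
  · intro x hx
    simp only
    rw [ha'V x hx, hc1V x hx]
    simp
  · intro u hu
    have e1 : c1 (u, false) + c1 (u, true) = c0 u := by
      rw [hc1]
      unfold CA_c1
      cases h : s u <;> simp [hu, h]
    have e2 : (if ((u, false) : Cp N).2 = true then c1 (u, false) + a' (u, false) else
        c1 (u, false) - a' (u, false)) = c1 (u, false) - a' (u, false) := by simp
    have e3 : (if ((u, true) : Cp N).2 = true then c1 (u, true) + a' (u, true) else
        c1 (u, true) - a' (u, true)) = c1 (u, true) + a' (u, true) := by simp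
    show (L : ℤ) * |(if ((u, false) : Cp N).2 = true then c1 (u, false) + a' (u, false) else
        c1 (u, false) - a' (u, false)) + (if ((u, true) : Cp N).2 = true then
        c1 (u, true) + a' (u, true) else c1 (u, true) - a' (u, true)) - c0 u| ≤ _
    rw [e2, e3]
    have e4 : c1 (u, false) - a' (u, false) + (c1 (u, true) + a' (u, true)) - c0 u =
        a' (u, true) - a' (u, false) := by
      rw [← e1]
      ring
    rw [e4]
    have h1 := ha'b (u, true)
    have h2 := ha'b (u, false)
    have h3 := mul_le_mul_of_nonneg_left (abs_sub (a' (u, true)) (a' (u, false))) hLpos.le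
    linarith
  · intro j
    have e1 : ∀ x ∈ Qc V cl j, sg (fun y : Cp N => if y.2 = true then c1 y + a' y else
        c1 y - a' y) x = sg c1 x - (if x ∈ A j then a j x else 0) := by
      intro x hx
      unfold Qc at hx
      rw [mem_filter] at hx
      have e2 : a' x = if x ∈ A j then a j x else 0 := by
        rw [ha']
        simp only
        rw [hx.2.2]
      rw [← e2]
      unfold sg
      simp only
      split_ifs
      · ring
      · ring
    rw [Finset.sum_congr rfl e1, Finset.sum_sub_distrib, Finset.sum_ite_mem,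
      Finset.inter_eq_right.mpr (hA1 j), hA2 j]
    rw [hβ]
    simp
  · intro x
    have hstep : (L : ℤ) * |(if x.2 = true then c1 x + a' x else c1 x - a' x)| ≤
        (L : ℤ) * |c1 x| + (L : ℤ) * |a' x| := by
      rw [← mul_add]
      apply mul_le_mul_of_nonneg_left _ hLpos.le
      split_ifs
      · exact abs_add_le _ _
      · exact abs_sub _ _
    refine hstep.trans ?_
    by_cases hx : x.1 ∈ V ∧ s x.1 = x.2
    · have h1 : |c1 x| ≤ B := by
        rw [hc1]
        unfold CA_c1
        rw [if_pos hx]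
        exact hc0 _ hx.1
      have h2 : (L : ℤ) ≤ (inc E x : ℤ) := by
        have := hs x.1 hx.1
        rw [hx.2] at this
        exact_mod_cast this
      have h3 := ha'b x
      have h4 := mul_le_mul_of_nonneg_left h1 hLpos.le
      have h5 : (3 * (B : ℤ) + L) * L ≤ (3 * (B : ℤ) + L) * (inc E x : ℤ) :=
        mul_le_mul_of_nonneg_left h2 (by linarith)
      nlinarith
    · have h1 : c1 x = 0 := by
        rw [hc1]
        unfold CA_c1
        rw [if_neg hx]
      rw [h1, abs_zero, mul_zero, zero_add]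
      by_cases h2 : x ∈ A (cl x)
      · have h3 := (hA3 (cl x) x h2).2
        have h4 : (1 : ℤ) ≤ (inc E x : ℤ) := by exact_mod_cast h3
        have h5 := ha'b x
        have h6 : (3 * (B : ℤ) + L) * 1 ≤ (3 * (B : ℤ) + L) * (inc E x : ℤ) :=
          mul_le_mul_of_nonneg_left h4 (by linarith)
        linarith
      · have h3 : a' x = 0 := by
          rw [ha']
          simp only
          rw [if_neg h2]
        rw [h3, abs_zero, mul_zero]
        positivity

end Pool.Agent.Helper78.RP
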