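import Pool.Agent.Helper95.RP.St

/-!
# Project RP, module CB: the cut condition
-/

set_option autoImplicit false

namespace Pool.Agent.Helper78.RP

open Pool.Agent.Helper95.RP Finset
open scoped Classical

/-- double counting of the ends -/
theorem CB_inc {N : ℕ} (E : Finset (Fin N × Fin N)) (T : Finset (Cp N)) :
    ∑ x ∈ T, inc E x = 2 * inn E T + cut E T := by
  have h1 : ∀ x ∈ T, inc E x = ∑ p ∈ E, ((if x = (p.1, false) then 1 else 0) +
      (if x = (p.2, true) then 1 else 0)) := by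
    intro x _
    unfold inc
    rw [Finset.card_filter]
    apply Finset.sum_congr rfl
    intro p _
    by_cases h1 : x = (p.1, false)
    · have h2 : x ≠ (p.2, true) := by
        rw [h1]
        intro h
        exact absurd (Prod.mk.inj h).2 (by simp)
      rw [if_pos (Or.inl h1.symm), if_pos h1, if_neg h2]
    · by_cases h2 : x = (p.2, true)
      · rw [if_pos (Or.inr h2.symm), if_neg h1, if_pos h2]
      · rw [if_neg, if_neg h1, if_neg h2]
        rintro (h | h)
        · exact h1 h.symm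
        · exact h2 h.symm
  rw [Finset.sum_congr rfl h1, Finset.sum_comm]
  have h2 : ∀ p ∈ E, ∑ x ∈ T, ((if x = (p.1, false) then 1 else 0) +
      (if x = (p.2, true) then 1 else 0)) =
      2 * (if (p.1, false) ∈ T ∧ (p.2, true) ∈ T then 1 else 0) +
      (if ¬ ((p.1, false) ∈ T ↔ (p.2, true) ∈ T) then 1 else 0) := by
    intro p _
    rw [Finset.sum_add_distrib, Finset.sum_ite_eq', Finset.sum_ite_eq']
    by_cases h3 : (p.1, false) ∈ T <;> by_cases h4 : (p.2, true) ∈ T <;> simp [h3, h4]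
  rw [Finset.sum_congr rfl h2, Finset.sum_add_distrib, ← Finset.mul_sum]
  unfold inn cut
  rw [Finset.card_filter, Finset.card_filter]

theorem CB_abs_sg {N : ℕ} (c : Cp N → ℤ) (x : Cp N) : |sg c x| = |c x| := by
  unfold sg
  split_ifs
  · exact abs_neg _
  · rfl

/-- **CB** -/
theorem hCB : CB := by
  intro N V cl E c A B L k hA hL hk hE hXp hc0 hcl hcb S
  -- the parts of S
  set T : Lb N → Finset (Cp N) := fun j => S.filter (fun x => x.1 ∈ V ∧ cl x = j) with hT
  have hTQ : ∀ j, T j ⊆ Qc V cl j := by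
    intro j x hx
    rw [hT, mem_filter] at hx
    unfold Qc
    rw [mem_filter]
    exact ⟨mem_univ _, hx.2⟩
  have hsum : ∑ x ∈ S, sg c x = ∑ j : Lb N, ∑ x ∈ T j, sg c x := by
    rw [← Finset.sum_fiberwise S cl (fun x => sg c x)]
    apply Finset.sum_congr rfl
    intro j _
    symm
    apply Finset.sum_subset
    · intro x hx
      rw [hT, mem_filter] at hx
      rw [mem_filter]
      exact ⟨hx.1, hx.2.2⟩
    · intro x hx hx'
      rw [mem_filter] at hx
      have hV : x.1 ∉ V := by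
        intro h
        apply hx'
        rw [hT, mem_filter]
        exact ⟨hx.1, h, hx.2⟩
      unfold sg
      rw [hc0 x hV]
      simp
  -- membership of the ends of an edge
  have hm1 : ∀ p ∈ E, ∀ j, ((p.1, false) ∈ T j ↔ cl (p.1, false) = j ∧ (p.1, false) ∈ S) := by
    intro p hp j
    rw [hT, mem_filter]
    constructor
    · rintro ⟨h1, _, h2⟩
      exact ⟨h2, h1⟩
    · rintro ⟨h1, h2⟩
      exact ⟨h2, (hE p hp).1, h1⟩
  have hm2 : ∀ p ∈ E, ∀ j, ((p.2, true) ∈ T j ↔ cl (p.1, false) = j ∧ (p.2, true) ∈ S) := by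
    intro p hp j
    rw [hT, mem_filter]
    constructor
    · rintro ⟨h1, _, h2⟩
      exact ⟨(hE p hp).2.2.trans h2, h1⟩
    · rintro ⟨h1, h2⟩
      exact ⟨h2, (hE p hp).2.1, (hE p hp).2.2.symm.trans h1⟩
  have hcut : ∑ j : Lb N, cut E (T j) = cut E S := by
    unfold cut
    rw [Finset.card_eq_sum_card_fiberwise
      (s := E.filter (fun p => ¬ ((p.1, false) ∈ S ↔ (p.2, true) ∈ S))) (t := univ)
      (f := fun p => cl (p.1, false)) (fun _ _ => Finset.mem_coe.2 (mem_univ _))]
    apply Finset.sum_congr rfl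
    intro j _
    congr 1
    ext p
    constructor
    · intro hp
      obtain ⟨h1, h2⟩ := mem_filter.1 hp
      rw [hm1 p h1 j, hm2 p h1 j] at h2
      refine mem_filter.2 ⟨mem_filter.2 ⟨h1, ?_⟩, ?_⟩
      · intro h
        apply h2
        rw [h]
      · by_contra h
        apply h2
        constructor
        · rintro ⟨h3, _⟩
          exact absurd h3 h
        · rintro ⟨h3, _⟩
          exact absurd h3 h
    · intro hp
      obtain ⟨hp', h3⟩ := mem_filter.1 hp
      obtain ⟨h1, h2⟩ := mem_filter.1 hp'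
      refine mem_filter.2 ⟨h1, ?_⟩
      rw [hm1 p h1 j, hm2 p h1 j]
      intro h
      apply h2
      constructor
      · intro h4
        exact (h.1 ⟨h3, h4⟩).2
      · intro h4
        exact (h.2 ⟨h3, h4⟩).2
  have hcut' : ∀ j, cut E (Qc V cl j \ T j) = cut E (T j) := by
    intro j
    unfold cut
    congr 1
    ext p
    rw [mem_filter, mem_filter]
    constructor
    · rintro ⟨h1, h2⟩
      refine ⟨h1, fun h => h2 ?_⟩
      have q1 : (p.1, false) ∈ Qc V cl j ↔ (p.2, true) ∈ Qc V cl j := by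
        unfold Qc
        rw [mem_filter, mem_filter]
        constructor
        · rintro ⟨_, _, h3⟩
          exact ⟨mem_univ _, (hE p h1).2.1, (hE p h1).2.2.symm.trans h3⟩
        · rintro ⟨_, _, h3⟩
          exact ⟨mem_univ _, (hE p h1).1, (hE p h1).2.2.trans h3⟩
      rw [mem_sdiff, mem_sdiff, q1, h]
    · rintro ⟨h1, h2⟩
      refine ⟨h1, fun h => h2 ?_⟩
      have q1 : (p.1, false) ∈ Qc V cl j ↔ (p.2, true) ∈ Qc V cl j := by
        unfold Qc
        rw [mem_filter, mem_filter]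
        constructor
        · rintro ⟨_, _, h3⟩
          exact ⟨mem_univ _, (hE p h1).2.1, (hE p h1).2.2.symm.trans h3⟩
        · rintro ⟨_, _, h3⟩
          exact ⟨mem_univ _, (hE p h1).1, (hE p h1).2.2.trans h3⟩
      rw [mem_sdiff, mem_sdiff, q1] at h
      constructor
      · intro h3
        by_contra h4
        exact (h.2 ⟨q1.1 (hTQ j h3), h4⟩).2 h3
      · intro h3
        by_contra h4
        exact (h.1 ⟨hTQ j h3, h4⟩).2 h3
  -- bound for one class
  have hbd : ∀ U : Finset (Cp N), (L : ℤ) * |∑ x ∈ U, sg c x| ≤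
      (3 * (B : ℤ) + L) * ((2 * inn E U + cut E U : ℕ) : ℤ) := by
    intro U
    calc (L : ℤ) * |∑ x ∈ U, sg c x| ≤ (L : ℤ) * ∑ x ∈ U, |sg c x| :=
          mul_le_mul_of_nonneg_left (Finset.abs_sum_le_sum_abs _ _) (by positivity)
      _ = ∑ x ∈ U, (L : ℤ) * |c x| := by
          rw [Finset.mul_sum]
          apply Finset.sum_congr rfl
          intro x _
          rw [CB_abs_sg]
      _ ≤ ∑ x ∈ U, (3 * (B : ℤ) + L) * (inc E x : ℤ) := Finset.sum_le_sum fun x _ => hcb x
      _ = (3 * (B : ℤ) + L) * ((2 * inn E U + cut E U : ℕ) : ℤ) := by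
          rw [← Finset.mul_sum, ← CB_inc]
          push_cast
          rfl
  have hj : ∀ j, |∑ x ∈ T j, sg c x| ≤ (k : ℤ) * (cut E (T j) : ℤ) := by
    intro j
    have hLpos : (0 : ℤ) < L := by exact_mod_cast hL
    have h1 := hbd (T j)
    have h2 := hbd (Qc V cl j \ T j)
    have h3 : ∑ x ∈ Qc V cl j \ T j, sg c x = - ∑ x ∈ T j, sg c x := by
      have := Finset.sum_sdiff (f := fun x => sg c x) (hTQ j)
      rw [hcl j] at this
      linarith
    rw [h3, abs_neg, hcut' j] at h2
    have h4 := hXp j (T j) (hTQ j)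
    have h5 : (3 * (A : ℤ)) * (3 * (B : ℤ) + L) ≤ (k : ℤ) * L := by exact_mod_cast hk
    have hA' : (1 : ℤ) ≤ A := by exact_mod_cast hA
    have hu : (0 : ℤ) ≤ (cut E (T j) : ℤ) := by positivity
    have hB : (0 : ℤ) ≤ 3 * (B : ℤ) + L := by positivity
    have key : ∀ i : ℕ, i ≤ A * cut E (T j) →
        (L : ℤ) * |∑ x ∈ T j, sg c x| ≤ (3 * (B : ℤ) + L) * ((2 * i + cut E (T j) : ℕ) : ℤ) →
        |∑ x ∈ T j, sg c x| ≤ (k : ℤ) * (cut E (T j) : ℤ) := by
      intro i hi h6
      have hi' : (i : ℤ) ≤ (A : ℤ) * (cut E (T j) : ℤ) := by exact_mod_cast hi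
      have h7 : ((2 * i + cut E (T j) : ℕ) : ℤ) ≤ 3 * (A : ℤ) * (cut E (T j) : ℤ) := by
        push_cast
        have := mul_le_mul_of_nonneg_right hA' hu
        linarith
      have h8 : (L : ℤ) * |∑ x ∈ T j, sg c x| ≤ (L : ℤ) * ((k : ℤ) * (cut E (T j) : ℤ)) := by
        calc (L : ℤ) * |∑ x ∈ T j, sg c x| ≤ _ := h6
          _ ≤ (3 * (B : ℤ) + L) * (3 * (A : ℤ) * (cut E (T j) : ℤ)) :=
              mul_le_mul_of_nonneg_left h7 hB
          _ = ((3 * (A : ℤ)) * (3 * (B : ℤ) + L)) * (cut E (T j) : ℤ) := by ring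
          _ ≤ ((k : ℤ) * L) * (cut E (T j) : ℤ) := mul_le_mul_of_nonneg_right h5 hu
          _ = _ := by ring
      exact le_of_mul_le_mul_left h8 hLpos
    rcases min_le_iff.mp h4 with h6 | h6
    · exact key _ h6 h1
    · exact key _ h6 h2
  rw [hsum]
  calc |∑ j : Lb N, ∑ x ∈ T j, sg c x| ≤ ∑ j : Lb N, |∑ x ∈ T j, sg c x| :=
        Finset.abs_sum_le_sum_abs _ _
    _ ≤ ∑ j : Lb N, (k : ℤ) * (cut E (T j) : ℤ) := Finset.sum_le_sum fun j _ => hj j
    _ = (k : ℤ) * (cut E S : ℤ) := by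
        rw [← Finset.mul_sum, ← hcut]
        push_cast
        rfl

end Pool.Agent.Helper78.RP
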