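import Pool.Agent.Helper95.RP.St

/-!
# Project RP, module DE: the expanding classes
-/

set_option autoImplicit false

namespace Pool.Agent.Helper78.RP

open Pool.Agent.Helper95.RP Finset
open scoped Classical

theorem DE_nlogn (n : ℕ) : 0 ≤ (n : ℝ) * Real.log (n : ℝ) :=
  mul_nonneg (Nat.cast_nonneg n) (Real.log_natCast_nonneg n)

theorem DE_hh_le (b : ℝ) (hb : 0 ≤ b) (n : ℕ) : hh b n ≤ (n : ℝ) := by
  unfold hh
  have := mul_nonneg hb (DE_nlogn n)
  linarith

theorem DE_sum_ej {N : ℕ} (G : SimpleGraph (Fin N)) (V : Finset (Fin N)) (cl : Cp N → Lb N) :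
    ∑ j : Lb N, ej G V cl j ≤ (Ed G V cl).card := by
  rw [Finset.card_eq_sum_card_fiberwise (s := Ed G V cl) (t := univ)
    (f := fun p => cl (p.1, false)) (fun _ _ => Finset.mem_coe.2 (mem_univ _))]
  apply Finset.sum_le_sum
  intro j _
  unfold ej inn
  apply Finset.card_le_card
  intro p hp
  rw [mem_filter] at hp ⊢
  refine ⟨hp.1, ?_⟩
  have h1 := hp.2.1
  unfold Qc at h1
  rw [mem_filter] at h1
  exact h1.2.2

theorem DE_card_Ed {N : ℕ} (G : SimpleGraph (Fin N)) (W : Finset (Fin N)) :
    (Ed G W (fun _ => none)).card = e2 G W := by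
  unfold Ed e2
  rw [Finset.card_eq_sum_card_fiberwise (t := W) (f := fun p : Fin N × Fin N => p.1)]
  · apply Finset.sum_congr rfl
    intro u hu
    unfold dg
    refine Finset.card_bij' (fun p _ => p.2) (fun v _ => (u, v)) ?_ ?_ ?_ ?_
    · intro p hp
      rw [mem_filter, mem_filter, mem_product] at hp
      rw [mem_filter]
      refine ⟨hp.1.1.2, ?_⟩
      rw [← hp.2]
      exact hp.1.2.1
    · intro v hv
      rw [mem_filter] at hv
      rw [mem_filter, mem_filter, mem_product]
      exact ⟨⟨⟨hu, hv.1⟩, hv.2, rfl⟩, rfl⟩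
    · intro p hp
      rw [mem_filter] at hp
      exact Prod.ext hp.2.symm rfl
    · intro v _
      rfl
  · intro p hp
    rw [Finset.mem_coe, mem_filter, mem_product] at hp
    exact Finset.mem_coe.2 hp.1.1

theorem DE_ej_none {N : ℕ} (G : SimpleGraph (Fin N)) (W : Finset (Fin N)) :
    ej G W (fun _ => none) none = e2 G W := by
  rw [← DE_card_Ed]
  unfold ej inn
  congr 1
  apply Finset.filter_true_of_mem
  intro p hp
  unfold Ed at hp
  rw [mem_filter, mem_product] at hp
  unfold Qc
  rw [mem_filter, mem_filter]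
  exact ⟨⟨mem_univ _, hp.1.1, rfl⟩, ⟨mem_univ _, hp.1.2, rfl⟩⟩

theorem DE_ej_some {N : ℕ} (G : SimpleGraph (Fin N)) (W : Finset (Fin N)) (j : Lb N)
    (hj : j ≠ none) : ej G W (fun _ => none) j = 0 := by
  unfold ej inn
  rw [Finset.card_eq_zero]
  apply Finset.filter_eq_empty_iff.mpr
  intro p _ h
  have h1 := h.1
  unfold Qc at h1
  rw [mem_filter] at h1
  exact hj h1.2.2.symm

/-- **DE** -/
theorem hDE : DE := by
  intro hXL hDB hDC N G W A q hA hq hE1 hE2
  set E := e2 G W with hE
  have hWne : W.Nonempty := by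
    rw [Finset.nonempty_iff_ne_empty]
    rintro rfl
    rw [hE] at hE1
    unfold e2 at hE1
    simp at hE1
  have hw : 0 < W.card := Finset.card_pos.mpr hWne
  have hwR : (0 : ℝ) < (W.card : ℝ) := by exact_mod_cast hw
  have hAR : (0 : ℝ) < (A : ℝ) := by
    have : 0 < A := hA
    exact_mod_cast this
  have hER : (1 : ℝ) ≤ (E : ℝ) := by exact_mod_cast hE1
  have hlog2 : 0 < Real.log 2 := Real.log_pos (by norm_num)
  set b : ℝ := 1 / (A * Real.log 2) with hb
  set lam : ℝ := (E : ℝ) / (4 * W.card) with hlam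
  have hbpos : 0 < b := by positivity
  have hlampos : 0 ≤ lam := by positivity
  obtain ⟨⟨V, cl⟩, hmem, hmax⟩ := Finset.exists_max_image
    (W.powerset ×ˢ (univ : Finset (Cp N → Lb N))) (fun p => Psi b lam G p.1 p.2)
    ⟨(W, fun _ => none), by
      rw [mem_product, mem_powerset]
      exact ⟨Finset.Subset.refl _, mem_univ _⟩⟩
  rw [mem_product, mem_powerset] at hmem
  have hVW : V ⊆ W := hmem.1
  have hmax' : ∀ (V' : Finset (Fin N)) (cl' : Cp N → Lb N), V' ⊆ W →
      Psi b lam G V' cl' ≤ Psi b lam G V cl := by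
    intro V' cl' h
    exact hmax (V', cl') (by
      rw [mem_product, mem_powerset]
      exact ⟨h, mem_univ _⟩)
  refine ⟨V, cl, hVW, ?_, ?_, ?_⟩
  · intro j S hS
    obtain ⟨e1, cl', e2'⟩ := hDC N G V cl b lam j S hS
    have h1 := hmax' V cl' hVW
    set x := inn (Ed G V cl) S with hx
    set y := inn (Ed G V cl) (Qc V cl j \ S) with hy
    set c := cut (Ed G V cl) S with hc
    rw [e1] at e2'
    have h2 : hh b x + hh b y ≤ hh b (x + y + c) := by linarith
    have h3 := hXL.2 x y c
    unfold hh at h2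
    have h4 : b * (((min x y : ℕ) : ℝ) * Real.log 2) ≤ (c : ℝ) := by
      have h5 := mul_le_mul_of_nonneg_left h3 hbpos.le
      have h6 : ((x + y + c : ℕ) : ℝ) = (x : ℝ) + y + c := by push_cast; ring
      have h7 : b * ((x : ℝ) * Real.log x + (y : ℝ) * Real.log y +
          ((min x y : ℕ) : ℝ) * Real.log 2) = b * ((x : ℝ) * Real.log x) +
          b * ((y : ℝ) * Real.log y) + b * (((min x y : ℕ) : ℝ) * Real.log 2) := by ring
      rw [h7] at h5
      linarith
    have h8 : b * (((min x y : ℕ) : ℝ) * Real.log 2) = ((min x y : ℕ) : ℝ) / A := by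
      rw [hb]
      field_simp
    rw [h8, div_le_iff₀ hAR] at h4
    have h9 : ((min x y : ℕ) : ℝ) ≤ ((A * c : ℕ) : ℝ) := by
      push_cast
      push_cast at h4
      linarith
    exact_mod_cast h9
  · intro u hu
    have h1 := hDB hXL N G V cl b lam u hbpos.le hu
    have h2 := hmax' (V.erase u) cl ((Finset.erase_subset _ _).trans hVW)
    set I := inc (Ed G V cl) (u, false) + inc (Ed G V cl) (u, true) with hI
    have h3 : lam ≤ (I : ℝ) := by linarith
    rw [hlam, div_le_iff₀ (by positivity)] at h3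
    have h4 : (E : ℝ) ≤ ((4 * (W.card * I) : ℕ) : ℝ) := by
      push_cast
      linarith
    exact_mod_cast h4
  · have h1 := hmax' W (fun _ => none) (Finset.Subset.refl _)
    have h2 : Psi b lam G W (fun _ => none) = hh b E - lam * W.card := by
      unfold Psi
      congr 1
      rw [← Finset.add_sum_erase univ _ (mem_univ (none : Lb N)), DE_ej_none]
      have : ∑ j ∈ univ.erase (none : Lb N), hh b (ej G W (fun _ => none) j) = 0 := by
        apply Finset.sum_eq_zero
        intro j hj
        rw [DE_ej_some G W j (Finset.ne_of_mem_erase hj)]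
        simp [hh]
      rw [this, add_zero]
    have h3 : lam * W.card = E / 4 := by
      rw [hlam]
      field_simp
    have h4 : Real.log E ≤ q * Real.log 2 := by
      have h5 : (E : ℝ) ≤ (2 : ℝ) ^ q := by exact_mod_cast hE2
      have := Real.log_le_log (by linarith) h5
      rwa [Real.log_pow] at this
    have h5 : b * ((E : ℝ) * Real.log E) ≤ E / 8 := by
      have h6 : b * ((E : ℝ) * Real.log E) ≤ b * ((E : ℝ) * (q * Real.log 2)) :=
        mul_le_mul_of_nonneg_left (mul_le_mul_of_nonneg_left h4 (by linarith)) hbpos.le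
      have h7 : b * ((E : ℝ) * (q * Real.log 2)) = (E : ℝ) * (q / A) := by
        rw [hb]
        field_simp
      have h8 : (q : ℝ) / A ≤ 1 / 8 := by
        rw [div_le_div_iff₀ hAR (by norm_num)]
        have : ((8 * q : ℕ) : ℝ) ≤ (A : ℝ) := by exact_mod_cast hq
        push_cast at this
        linarith
      have h9 := mul_le_mul_of_nonneg_left h8 (by linarith : (0 : ℝ) ≤ E)
      linarith
    have h6 : Psi b lam G V cl ≤ ((Ed G V cl).card : ℝ) := by
      unfold Psi
      have h7 : ∑ j : Lb N, hh b (ej G V cl j) ≤ ∑ j : Lb N, (ej G V cl j : ℝ) :=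
        Finset.sum_le_sum fun j _ => DE_hh_le b hbpos.le _
      have h8 : ∑ j : Lb N, (ej G V cl j : ℝ) ≤ ((Ed G V cl).card : ℝ) := by
        have := DE_sum_ej G V cl
        exact_mod_cast this
      have h9 : 0 ≤ lam * (V.card : ℝ) := by positivity
      linarith
    have h7 : 5 * (E : ℝ) ≤ 8 * ((Ed G V cl).card : ℝ) := by
      rw [h2, h3] at h1
      unfold hh at h1
      linarith
    exact_mod_cast h7

end Pool.Agent.Helper78.RP
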