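import Pool.Agent.Helper95.RP.St

/-!
# Project RP, module FA: no augmenting path
-/

set_option autoImplicit false

namespace Pool.Agent.Helper78.RP

open Pool.Agent.Helper95.RP Finset
open scoped Classical

/-- the sum of the absolute values of the needs -/
noncomputable def FA_Phi {N : ℕ} (c : Cp N → ℤ) (g : Fin N × Fin N → ℤ) : ℕ :=
  ∑ x : Cp N, (need c g x).natAbs

theorem FA_need {N : ℕ} (c : Cp N → ℤ) (g : Fin N × Fin N → ℤ) (a b : Fin N) (δ : ℤ) :
    need c (Function.update g (a, b) (g (a, b) + δ)) (a, false) = need c g (a, false) - δ ∧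
    need c (Function.update g (a, b) (g (a, b) + δ)) (b, true) = need c g (b, true) + δ ∧
    ∀ z : Cp N, z ≠ (a, false) → z ≠ (b, true) →
      need c (Function.update g (a, b) (g (a, b) + δ)) z = need c g z := by
  have hrow : ∑ v : Fin N, Function.update g (a, b) (g (a, b) + δ) (a, v) =
      ∑ v : Fin N, g (a, v) + δ := by
    rw [← Finset.add_sum_erase univ _ (mem_univ b), ← Finset.add_sum_erase univ (fun v => g (a, v))
      (mem_univ b), Function.update_self]
    have : ∑ v ∈ univ.erase b, Function.update g (a, b) (g (a, b) + δ) (a, v) =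
        ∑ v ∈ univ.erase b, g (a, v) := by
      apply Finset.sum_congr rfl
      intro v hv
      rw [Function.update_of_ne]
      intro h
      rw [mem_erase] at hv
      exact hv.1 (Prod.mk.inj h).2
    rw [this]
    ring
  have hcol : ∑ u : Fin N, Function.update g (a, b) (g (a, b) + δ) (u, b) =
      ∑ u : Fin N, g (u, b) + δ := by
    rw [← Finset.add_sum_erase univ _ (mem_univ a), ← Finset.add_sum_erase univ (fun u => g (u, b))
      (mem_univ a), Function.update_self]
    have : ∑ u ∈ univ.erase a, Function.update g (a, b) (g (a, b) + δ) (u, b) =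
        ∑ u ∈ univ.erase a, g (u, b) := by
      apply Finset.sum_congr rfl
      intro u hu
      rw [Function.update_of_ne]
      intro h
      rw [mem_erase] at hu
      exact hu.1 (Prod.mk.inj h).1
    rw [this]
    ring
  refine ⟨?_, ?_, ?_⟩
  · unfold need
    rw [if_neg (by simp), if_neg (by simp), hrow]
    ring
  · unfold need
    rw [if_pos rfl, if_pos rfl, hcol]
    ring
  · rintro ⟨z1, z2⟩ h1 h2
    unfold need
    cases z2 with
    | false =>
      have hz : z1 ≠ a := fun h => h1 (by rw [h])
      rw [if_neg (by simp), if_neg (by simp)]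
      congr 1
      apply Finset.sum_congr rfl
      intro v _
      rw [Function.update_of_ne]
      intro h
      exact hz (Prod.mk.inj h).1
    | true =>
      have hz : z1 ≠ b := fun h => h2 (by rw [h])
      rw [if_pos rfl, if_pos rfl]
      congr 1
      apply Finset.sum_congr rfl
      intro u _
      rw [Function.update_of_ne]
      intro h
      exact hz (Prod.mk.inj h).2

/-- pushing one unit along a step -/
theorem FA_push {N : ℕ} (E : Finset (Fin N × Fin N)) (c : Cp N → ℤ) (k : ℕ)
    (g : Fin N × Fin N → ℤ) (hg : Cap E k g) (x y : Cp N) (hxy : Stp E k g x y) :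
    ∃ g' : Fin N × Fin N → ℤ, Cap E k g' ∧ need c g' x = need c g x - 1 ∧
      need c g' y = need c g y + 1 ∧ x ≠ y ∧
      (∀ z : Cp N, z ≠ x → z ≠ y → need c g' z = need c g z) ∧
      ∀ z w : Cp N, z ≠ x → w ≠ x → Stp E k g z w → Stp E k g' z w := by
  obtain ⟨hg1, hg2⟩ := hg
  rcases hxy with ⟨hx, hy, hE, hlt⟩ | ⟨hx, hy, hE, hlt⟩
  · have ex : x = (x.1, false) := Prod.ext rfl hx
    have ey : y = (y.1, true) := Prod.ext rfl hy
    obtain ⟨n1, n2, n3⟩ := FA_need c g x.1 y.1 1
    refine ⟨Function.update g (x.1, y.1) (g (x.1, y.1) + 1), ⟨?_, ?_⟩, ?_, ?_, ?_, ?_, ?_⟩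
    · intro p hp
      rw [Function.update_of_ne]
      · exact hg1 p hp
      · intro h
        apply hp
        rw [h]
        exact hE
    · intro p
      by_cases hp : p = (x.1, y.1)
      · rw [hp, Function.update_self]
        have := hg2 (x.1, y.1)
        rw [abs_le] at this ⊢
        constructor <;> linarith [this.1, this.2]
      · rw [Function.update_of_ne hp]
        exact hg2 p
    · conv_lhs => rw [ex]
      conv_rhs => rw [ex]
      exact n1
    · conv_lhs => rw [ey]
      conv_rhs => rw [ey]
      exact n2
    · intro h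
      rw [h, hy] at hx
      exact absurd hx (by simp)
    · intro z h1 h2
      exact n3 z (fun h => h1 (h.trans ex.symm)) (fun h => h2 (h.trans ey.symm))
    · intro z w hz hw hst
      rcases hst with ⟨a1, a2, a3, a4⟩ | ⟨a1, a2, a3, a4⟩
      · refine Or.inl ⟨a1, a2, a3, ?_⟩
        rw [Function.update_of_ne]
        · exact a4
        · intro h
          apply hz
          rw [ex]
          exact Prod.ext (Prod.mk.inj h).1 a1
      · refine Or.inr ⟨a1, a2, a3, ?_⟩
        rw [Function.update_of_ne]
        · exact a4
        · intro h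
          apply hw
          rw [ex]
          exact Prod.ext (Prod.mk.inj h).1 a2
  · have ex : x = (x.1, true) := Prod.ext rfl hx
    have ey : y = (y.1, false) := Prod.ext rfl hy
    obtain ⟨n1, n2, n3⟩ := FA_need c g y.1 x.1 (-1)
    refine ⟨Function.update g (y.1, x.1) (g (y.1, x.1) + -1), ⟨?_, ?_⟩, ?_, ?_, ?_, ?_, ?_⟩
    · intro p hp
      rw [Function.update_of_ne]
      · exact hg1 p hp
      · intro h
        apply hp
        rw [h]
        exact hE
    · intro p
      by_cases hp : p = (y.1, x.1)
      · rw [hp, Function.update_self]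
        have := hg2 (y.1, x.1)
        rw [abs_le] at this ⊢
        constructor <;> linarith [this.1, this.2]
      · rw [Function.update_of_ne hp]
        exact hg2 p
    · conv_lhs => rw [ex]
      conv_rhs => rw [ex]
      rw [n2]
      ring
    · conv_lhs => rw [ey]
      conv_rhs => rw [ey]
      rw [n1]
      ring
    · intro h
      rw [h, hy] at hx
      exact absurd hx (by simp)
    · intro z h1 h2
      exact n3 z (fun h => h2 (h.trans ey.symm)) (fun h => h1 (h.trans ex.symm))
    · intro z w hz hw hst
      rcases hst with ⟨a1, a2, a3, a4⟩ | ⟨a1, a2, a3, a4⟩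
      · refine Or.inl ⟨a1, a2, a3, ?_⟩
        rw [Function.update_of_ne]
        · exact a4
        · intro h
          apply hw
          rw [ex]
          exact Prod.ext (Prod.mk.inj h).2 a2
      · refine Or.inr ⟨a1, a2, a3, ?_⟩
        rw [Function.update_of_ne]
        · exact a4
        · intro h
          apply hz
          rw [ex]
          exact Prod.ext (Prod.mk.inj h).2 a1

theorem FA_split {N : ℕ} (f : Cp N → ℕ) (x y : Cp N) (hxy : x ≠ y) :
    ∑ z : Cp N, f z = f x + (f y + ∑ z ∈ (univ.erase x).erase y, f z) := by
  rw [← Finset.add_sum_erase univ f (mem_univ x), ← Finset.add_sum_erase (univ.erase x) f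
    (mem_erase.2 ⟨hxy.symm, mem_univ y⟩)]

/-- **FA** -/
theorem hFA : FA := by
  intro N E c k
  -- a minimal flow
  have hex : ∃ n : ℕ, ∃ g : Fin N × Fin N → ℤ, Cap E k g ∧ FA_Phi c g = n := by
    refine ⟨_, fun _ => 0, ⟨fun _ _ => rfl, fun p => ?_⟩, rfl⟩
    simp
  obtain ⟨g0, hg0, hPhi0⟩ := Nat.find_spec hex
  have hmin : ∀ g : Fin N × Fin N → ℤ, Cap E k g → Nat.find hex ≤ FA_Phi c g :=
    fun g hg => Nat.find_min' hex ⟨g, hg, rfl⟩
  set m0 := Nat.find hex with hm0
  have main : ∀ n : ℕ, ∀ g : Fin N × Fin N → ℤ, Cap E k g → FA_Phi c g = m0 →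
      ∀ p : ℕ → Cp N, (∀ i < n, Stp E k g (p i) (p (i + 1))) → 0 < need c g (p 0) →
        ¬ need c g (p n) < 0 := by
    intro n
    induction n using Nat.strong_induction_on with
    | _ n ih =>
      intro g hg hPhi p hp hpos hneg
      rcases Nat.eq_zero_or_pos n with rfl | hn
      · linarith
      by_cases hrep : ∃ i, 1 ≤ i ∧ i ≤ n ∧ p i = p 0
      · obtain ⟨i, hi1, hin, hpi⟩ := hrep
        refine ih (n - i) (by omega) g hg hPhi (fun j => p (i + j)) ?_ ?_ ?_
        · intro j hj
          exact hp (i + j) (by omega)
        · show 0 < need c g (p (i + 0))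
          rw [add_zero, hpi]
          exact hpos
        · show need c g (p (i + (n - i))) < 0
          rw [Nat.add_sub_cancel' hin]
          exact hneg
      · push Not at hrep
        obtain ⟨g', hg', hx, hy, hxy, hz, hst⟩ := FA_push E c k g hg (p 0) (p 1)
          (by simpa using hp 0 hn)
        have hPhi' := FA_split (fun z => (need c g' z).natAbs) (p 0) (p 1) hxy
        have hPhi1 := FA_split (fun z => (need c g z).natAbs) (p 0) (p 1) hxy
        have hrest : ∑ z ∈ (univ.erase (p 0)).erase (p 1), (need c g' z).natAbs =
            ∑ z ∈ (univ.erase (p 0)).erase (p 1), (need c g z).natAbs := by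
          apply Finset.sum_congr rfl
          intro z hz'
          rw [mem_erase, mem_erase] at hz'
          rw [hz z hz'.2.1 hz'.1]
        rw [hrest] at hPhi'
        have hle := hmin g' hg'
        have hPg : FA_Phi c g = ∑ z : Cp N, (need c g z).natAbs := rfl
        have hPg' : FA_Phi c g' = ∑ z : Cp N, (need c g' z).natAbs := rfl
        rw [hx, hy] at hPhi'
        by_cases h1 : need c g (p 1) < 0
        · omega
        · push Not at h1
          have hn2 : 2 ≤ n := by
            by_contra hlt
            have : n = 1 := by omega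
            rw [this] at hneg
            linarith
          have hpn0 : p n ≠ p 0 := hrep n hn le_rfl
          have hpn1 : p n ≠ p 1 := by
            intro h
            rw [h] at hneg
            linarith
          refine ih (n - 1) (by omega) g' hg' ?_ (fun j => p (j + 1)) ?_ ?_ ?_
          · omega
          · intro j hj
            exact hst _ _ (hrep (j + 1) (by omega) (by omega))
              (hrep (j + 1 + 1) (by omega) (by omega)) (hp (j + 1) (by omega))
          · show 0 < need c g' (p (0 + 1))
            rw [zero_add, hy]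
            linarith
          · show need c g' (p (n - 1 + 1)) < 0
            rw [Nat.sub_add_cancel (by omega), hz _ hpn0 hpn1]
            exact hneg
  refine ⟨g0, hg0, ?_⟩
  intro x y hxy hpos
  -- a path as a function
  have hpath : ∃ (n : ℕ) (p : ℕ → Cp N), p 0 = x ∧ p n = y ∧
      ∀ i < n, Stp E k g0 (p i) (p (i + 1)) := by
    clear hpos
    induction hxy with
    | refl => exact ⟨0, fun _ => x, rfl, rfl, by intro i hi; omega⟩
    | @tail b z _ hbc ih =>
      obtain ⟨n, p, h0, hn, hs⟩ := ih
      refine ⟨n + 1, fun i => if i ≤ n then p i else z, ?_, ?_, ?_⟩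
      · simp [h0]
      · simp
      · intro i hi
        by_cases hin : i < n
        · have e1 : i ≤ n := hin.le
          have e2 : i + 1 ≤ n := hin
          simp only [e1, e2, if_true]
          exact hs i hin
        · have e1 : i = n := by omega
          subst e1
          simp only [le_refl, if_true, Nat.not_succ_le_self, if_false]
          rw [hn]
          exact hbc
  obtain ⟨n, p, h0, hn, hs⟩ := hpath
  have := main n g0 hg0 hPhi0 p hs (by rw [h0]; exact hpos)
  rw [hn] at this
  exact this

end Pool.Agent.Helper78.RP
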