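import Pool.Agent.Helper95.RP.St

/-!
# Project RP, module KR: a subset on which the degrees are bounded
-/

set_option autoImplicit false

namespace Pool.Agent.Helper78.RP

open Pool.Agent.Helper95.RP Finset
open scoped Classical

theorem KR_e2_erase {N : ℕ} (G : SimpleGraph (Fin N)) (W : Finset (Fin N)) (v : Fin N)
    (hv : v ∈ W) : e2 G W = e2 G (W.erase v) + 2 * dg G W v := by
  unfold e2
  rw [← Finset.add_sum_erase W _ hv]
  have h1 : ∀ x ∈ W.erase v, dg G W x = dg G (W.erase v) x + if G.Adj v x then 1 else 0 := by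
    intro x hx
    unfold dg
    have e : W.filter (fun u => G.Adj x u) =
        (W.erase v).filter (fun u => G.Adj x u) ∪ (if G.Adj v x then {v} else ∅) := by
      ext u
      rw [mem_filter, mem_union, mem_filter, mem_erase]
      by_cases hvx : G.Adj v x
      · rw [if_pos hvx, mem_singleton]
        constructor
        · rintro ⟨h1, h2⟩
          by_cases h : u = v
          · exact Or.inr h
          · exact Or.inl ⟨⟨h, h1⟩, h2⟩
        · rintro (⟨⟨_, h1⟩, h2⟩ | rfl)
          · exact ⟨h1, h2⟩
          · exact ⟨hv, hvx.symm⟩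
      · rw [if_neg hvx]
        constructor
        · rintro ⟨h1, h2⟩
          left
          refine ⟨⟨?_, h1⟩, h2⟩
          rintro rfl
          exact hvx h2.symm
        · rintro (⟨⟨_, h1⟩, h2⟩ | h)
          · exact ⟨h1, h2⟩
          · exact absurd h (Finset.notMem_empty _)
    rw [e, Finset.card_union_of_disjoint]
    · split_ifs <;> simp
    · rw [Finset.disjoint_left]
      intro u hu hu'
      rw [mem_filter, mem_erase] at hu
      split_ifs at hu'
      · rw [mem_singleton] at hu'
        exact hu.1.1 hu'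
      · exact absurd hu' (Finset.notMem_empty _)
  rw [Finset.sum_congr rfl h1, Finset.sum_add_distrib]
  have h2 : ∑ x ∈ W.erase v, (if G.Adj v x then 1 else 0) = dg G W v := by
    rw [← Finset.card_filter]
    unfold dg
    congr 1
    ext u
    rw [mem_filter, mem_filter, mem_erase]
    constructor
    · rintro ⟨⟨_, h1⟩, h2⟩
      exact ⟨h1, h2⟩
    · rintro ⟨h1, h2⟩
      exact ⟨⟨h2.ne', h1⟩, h2⟩
  rw [h2]
  ring

/-- **KR** -/
theorem hKR : KR := by
  intro N G t q hI ht hq
  have hN : 4 ≤ N := by omega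
  have hq0 : q ≠ 0 := by
    rintro rfl
    have : 16 ≤ N ^ 2 := by nlinarith
    omega
  have hu : (univ : Finset (Fin N)) ∈ (univ : Finset (Finset (Fin N))).filter
      (fun W => t < W.card) := by
    rw [mem_filter, Finset.card_univ, Fintype.card_fin]
    exact ⟨mem_univ _, by omega⟩
  obtain ⟨W, hW, hmin⟩ := Finset.exists_min_image
    ((univ : Finset (Finset (Fin N))).filter (fun W => t < W.card))
    (fun W => (e2 G W : ℝ) / (W.card : ℝ) ^ q) ⟨_, hu⟩
  rw [mem_filter] at hW
  have hWt := hW.2
  have hwpos : (0 : ℝ) < (W.card : ℝ) := by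
    have : 0 < W.card := by omega
    exact_mod_cast this
  have hNpos : (0 : ℝ) < (N : ℝ) := by
    have : 0 < N := by omega
    exact_mod_cast this
  -- at least one edge
  have he1 : 1 ≤ e2 G W := by
    obtain ⟨S, hS, hSt⟩ := Finset.exists_subset_card_eq (s := W) (n := t) hWt.le
    obtain ⟨u, hu, v, hv, huv⟩ := hI S hSt
    have h1 : 1 ≤ dg G W u := by
      unfold dg
      rw [Nat.one_le_iff_ne_zero, Ne, Finset.card_eq_zero]
      intro h
      have : v ∈ W.filter (fun x => G.Adj u x) := mem_filter.2 ⟨hS hv, huv⟩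
      rw [h] at this
      exact absurd this (Finset.notMem_empty _)
    unfold e2
    exact h1.trans (Finset.single_le_sum (f := fun v => dg G W v) (fun _ _ => Nat.zero_le _)
      (hS hu))
  have he2 : e2 G (univ : Finset (Fin N)) ≤ N ^ 2 := by
    unfold e2
    calc ∑ v ∈ (univ : Finset (Fin N)), dg G univ v ≤ ∑ _v ∈ (univ : Finset (Fin N)), N := by
          apply Finset.sum_le_sum
          intro v _
          unfold dg
          refine (Finset.card_filter_le _ _).trans ?_
          rw [Finset.card_univ, Fintype.card_fin]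
      _ = N ^ 2 := by
          rw [Finset.sum_const, Finset.card_univ, Fintype.card_fin, smul_eq_mul, sq]
  refine ⟨W, ?_, ?_⟩
  · have h1 := hmin _ hu
    rw [Finset.card_univ, Fintype.card_fin, div_le_div_iff₀ (pow_pos hwpos q) (pow_pos hNpos q)] at h1
    have h2 : (N : ℝ) ^ q ≤ (2 * W.card : ℝ) ^ q := by
      calc (N : ℝ) ^ q = 1 * (N : ℝ) ^ q := (one_mul _).symm
        _ ≤ (e2 G W : ℝ) * (N : ℝ) ^ q :=
            mul_le_mul_of_nonneg_right (by exact_mod_cast he1) (pow_pos hNpos q).le
        _ ≤ (e2 G (univ : Finset (Fin N)) : ℝ) * (W.card : ℝ) ^ q := h1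
        _ ≤ (2 : ℝ) ^ q * (W.card : ℝ) ^ q := by
            apply mul_le_mul_of_nonneg_right _ (pow_pos hwpos q).le
            have := he2.trans hq
            exact_mod_cast this
        _ = (2 * W.card : ℝ) ^ q := (mul_pow _ _ _).symm
    have h3 : (N : ℝ) ≤ 2 * W.card := by
      exact (pow_le_pow_iff_left₀ hNpos.le (by positivity) hq0).mp h2
    exact_mod_cast h3
  · intro v hv
    have hNW : N ≤ 2 * W.card := by
      have h1 := hmin _ hu
      rw [Finset.card_univ, Fintype.card_fin,
        div_le_div_iff₀ (pow_pos hwpos q) (pow_pos hNpos q)] at h1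
      have h2 : (N : ℝ) ^ q ≤ (2 * W.card : ℝ) ^ q := by
        calc (N : ℝ) ^ q = 1 * (N : ℝ) ^ q := (one_mul _).symm
          _ ≤ (e2 G W : ℝ) * (N : ℝ) ^ q :=
              mul_le_mul_of_nonneg_right (by exact_mod_cast he1) (pow_pos hNpos q).le
          _ ≤ (e2 G (univ : Finset (Fin N)) : ℝ) * (W.card : ℝ) ^ q := h1
          _ ≤ (2 : ℝ) ^ q * (W.card : ℝ) ^ q := by
              apply mul_le_mul_of_nonneg_right _ (pow_pos hwpos q).le
              have := he2.trans hq
              exact_mod_cast this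
          _ = (2 * W.card : ℝ) ^ q := (mul_pow _ _ _).symm
      have h3 : (N : ℝ) ≤ 2 * W.card := by
        exact (pow_le_pow_iff_left₀ hNpos.le (by positivity) hq0).mp h2
      exact_mod_cast h3
    have hcard : (W.erase v).card = W.card - 1 := Finset.card_erase_of_mem hv
    have hmem : W.erase v ∈ (univ : Finset (Finset (Fin N))).filter (fun W => t < W.card) := by
      rw [mem_filter, hcard]
      exact ⟨mem_univ _, by omega⟩
    have h1 := hmin _ hmem
    have hw1 : ((W.erase v).card : ℝ) = (W.card : ℝ) - 1 := by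
      rw [hcard, Nat.cast_sub (by omega)]
      simp
    have hw1pos : (0 : ℝ) < (W.card : ℝ) - 1 := by
      have : 1 < W.card := by omega
      have : (1 : ℝ) < (W.card : ℝ) := by exact_mod_cast this
      linarith
    have he : (e2 G W : ℝ) = (e2 G (W.erase v) : ℝ) + 2 * (dg G W v : ℝ) := by
      exact_mod_cast KR_e2_erase G W v hv
    simp only [hw1] at h1
    rw [div_le_div_iff₀ (pow_pos hwpos q) (pow_pos hw1pos q)] at h1
    have hE : (0 : ℝ) ≤ (e2 G W : ℝ) := Nat.cast_nonneg _
    -- Bernoulli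
    have hb : (W.card : ℝ) ^ q * (1 - q / W.card) ≤ ((W.card : ℝ) - 1) ^ q := by
      have h2 : (1 : ℝ) + (q : ℝ) * (-(1 / (W.card : ℝ))) ≤ (1 + (-(1 / (W.card : ℝ)))) ^ q := by
        apply one_add_mul_le_pow
        have : 1 / (W.card : ℝ) ≤ 1 := by
          rw [div_le_one hwpos]
          linarith
        linarith
      have h3 : ((W.card : ℝ) - 1) ^ q = (W.card : ℝ) ^ q * (1 + (-(1 / (W.card : ℝ)))) ^ q := by
        rw [← mul_pow]
        congr 1
        field_simp
        ring
      rw [h3]
      apply mul_le_mul_of_nonneg_left _ (pow_pos hwpos q).le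
      have : (1 : ℝ) - q / W.card = 1 + (q : ℝ) * (-(1 / (W.card : ℝ))) := by ring
      rw [this]
      exact h2
    have h4 : (e2 G W : ℝ) * ((W.card : ℝ) ^ q * (1 - q / W.card)) ≤
        ((e2 G W : ℝ) - 2 * (dg G W v : ℝ)) * (W.card : ℝ) ^ q := by
      refine (mul_le_mul_of_nonneg_left hb hE).trans ?_
      refine h1.trans (le_of_eq ?_)
      rw [he]
      ring
    have h5 : (e2 G W : ℝ) * (1 - q / W.card) ≤ (e2 G W : ℝ) - 2 * (dg G W v : ℝ) := by
      have h6 : ((e2 G W : ℝ) * (1 - q / W.card)) * (W.card : ℝ) ^ q ≤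
          ((e2 G W : ℝ) - 2 * (dg G W v : ℝ)) * (W.card : ℝ) ^ q := by
        calc ((e2 G W : ℝ) * (1 - q / W.card)) * (W.card : ℝ) ^ q =
            (e2 G W : ℝ) * ((W.card : ℝ) ^ q * (1 - q / W.card)) := by ring
          _ ≤ _ := h4
      exact le_of_mul_le_mul_right h6 (pow_pos hwpos q)
    have h7 : 2 * (dg G W v : ℝ) ≤ (e2 G W : ℝ) * (q / W.card) := by linarith
    have h8 : 2 * ((W.card : ℝ) * (dg G W v : ℝ)) ≤ (q : ℝ) * (e2 G W : ℝ) := by
      have := mul_le_mul_of_nonneg_left h7 hwpos.le
      have h9 : (W.card : ℝ) * ((e2 G W : ℝ) * (q / W.card)) = (q : ℝ) * (e2 G W : ℝ) := by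
        field_simp
      rw [h9] at this
      linarith
    exact_mod_cast h8

end Pool.Agent.Helper78.RP
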